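import Mathlib

/-!
# MP_362848_lc, Q1: approximate covering of the segment is not solvable under ASYNC

Sketch.  If a protocol solves the problem, then it makes a sensor with neighbours at some distances
`a`, `b` move by `r > 0` towards one side, say to the right.  Let this sensor `s_1` take its snapshot
at time `0` and hold its move pending.  Put so many sensors to the right of `s_1` that, as the
protocol is correct on the sub-segment whose left end is `s_1`, at some time one of them comes within
distance `r` of `s_1` while all of them were to the right of `s_1` before.  Now let `s_1` execute its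
pending move and be stopped at the position of that sensor.  From then on the two sensors have the
same position and the same view, are activated simultaneously, and stay together for ever.
-/

set_option autoImplicit false

open Finset

namespace Pool.Agent.Results.MP_362848_lc.AsyncSegment

/-- A protocol: in its local coordinate system, from its own coordinate, the distance of the nearest
sensor on the negative side (`⊤` if there is none), the distance of the nearest sensor on the
positive side, and the number of sensors at its own position, a sensor computes the displacement to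
its destination. -/
abbrev Protocol : Type := ℝ → WithTop ℝ → WithTop ℝ → ℕ → ℝ

/-- The distance from sensor `i` to the nearest sensor on the side `s` (`s = 1` positive,
`s = -1` negative), measured in the local coordinate system of `i` with signed unit `c`. -/
noncomputable def near {n : ℕ} (x : Fin n → ℝ) (c s : ℝ) (i : Fin n) : WithTop ℝ :=
  (univ.filter (fun j => 0 < s * ((x j - x i) / c))).inf
    (fun j => ((s * ((x j - x i) / c) : ℝ) : WithTop ℝ))

/-- The number of sensors at the position of sensor `i` (itself included). -/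
noncomputable def mult {n : ℕ} (x : Fin n → ℝ) (i : Fin n) : ℕ :=
  (univ.filter (fun j => x j = x i)).card

/-- The destination (in global coordinates) computed from the snapshot `x` by sensor `i`, whose local
coordinate system has origin `o` and signed unit `c`. -/
noncomputable def dest (P : Protocol) {n : ℕ} (x : Fin n → ℝ) (c o : ℝ) (i : Fin n) : ℝ :=
  x i + c * P ((x i - o) / c) (near x c (-1) i) (near x c 1 i) (mult x i)

/-- Admissible ASYNC executions of the protocol `P` for the sensors `s_0, ..., s_{N+1}`; `x t i` is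
the position of `s_i` at time `t ≥ 0`, and the local coordinate system of `s_i` has signed unit `c i`
(its sign is the orientation) and origin `o i`. -/
structure Admissible (P : Protocol) (N : ℕ) (c o : Fin (N + 2) → ℝ) (x : ℝ → Fin (N + 2) → ℝ) :
    Prop where
  unit : ∀ i, c i ≠ 0
  initial : StrictMono (x 0)
  left_end : ∀ t, 0 ≤ t → x t 0 = 0
  right_end : ∀ t, 0 ≤ t → x t (Fin.last (N + 1)) = 1
  cycles : ∃ δ : ℝ, 0 < δ ∧ ∀ i : Fin (N + 2), i ≠ 0 → i ≠ Fin.last (N + 1) →
    ∃ look start stop : ℕ → ℝ,
      0 ≤ look 0 ∧ (∀ k, look k < start k ∧ start k < stop k ∧ stop k < look (k + 1)) ∧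
      Filter.Tendsto look Filter.atTop Filter.atTop ∧
      (∀ t, 0 ≤ t → t ≤ start 0 → x t i = x 0 i) ∧
      (∀ k t, stop k ≤ t → t ≤ start (k + 1) → x t i = x (stop k) i) ∧
      (∀ k, ContinuousOn (fun t => x t i) (Set.Icc (start k) (stop k)) ∧
        (∀ t t', start k ≤ t → t ≤ t' → t' ≤ stop k →
          x t' i ∈ Set.uIcc (x t i) (dest P (x (look k)) (c i) (o i) i)) ∧
        (x (stop k) i = dest P (x (look k)) (c i) (o i) i ∨ δ ≤ |x (stop k) i - x (look k) i|))

/-- The `ε`-approximate covering of the segment by `N + 2` sensors. -/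
def Covering (N : ℕ) (ε : ℝ) (x : Fin (N + 2) → ℝ) : Prop :=
  ∀ i : Fin (N + 1), 1 / ((N : ℝ) + 1) - ε ≤ |x i.succ - x i.castSucc| ∧
    |x i.succ - x i.castSucc| ≤ 1 / ((N : ℝ) + 1) + ε

/-- The protocol `P` solves approximate covering. -/
def Solves (P : Protocol) : Prop :=
  ∀ (N : ℕ) (c o : Fin (N + 2) → ℝ) (x : ℝ → Fin (N + 2) → ℝ), Admissible P N c o x →
    ∀ ε : ℝ, 0 < ε → ∃ t, 0 ≤ t ∧ Covering N ε (x t)

/-! ### interpolation of step executions -/

/-- the ramp -/
noncomputable def ramp (s : ℝ) : ℝ := max 0 (min 1 (s - 1))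

lemma ramp_nonneg (s : ℝ) : 0 ≤ ramp s := le_max_left _ _

lemma ramp_le_one (s : ℝ) : ramp s ≤ 1 := max_le zero_le_one (min_le_left _ _)

lemma ramp_zero {s : ℝ} (h : s ≤ 1) : ramp s = 0 := by
  unfold ramp
  rw [max_eq_left]
  exact (min_le_right _ _).trans (by linarith)

lemma ramp_one {s : ℝ} (h : 2 ≤ s) : ramp s = 1 := by
  unfold ramp
  rw [min_eq_left (by linarith), max_eq_right zero_le_one]

lemma ramp_mid {s : ℝ} (h1 : 1 ≤ s) (h2 : s ≤ 2) : ramp s = s - 1 := by
  unfold ramp
  rw [min_eq_right (by linarith), max_eq_right (by linarith)]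

/-- the interpolated execution -/
noncomputable def interp {n : ℕ} (y : ℕ → Fin n → ℝ) (t : ℝ) (i : Fin n) : ℝ :=
  y ⌊t / 3⌋₊ i + ramp (t - 3 * (⌊t / 3⌋₊ : ℝ)) * (y (⌊t / 3⌋₊ + 1) i - y ⌊t / 3⌋₊ i)

lemma interp_eq {n : ℕ} (y : ℕ → Fin n → ℝ) (k : ℕ) (t : ℝ) (h1 : 3 * (k : ℝ) ≤ t)
    (h2 : t ≤ 3 * (k : ℝ) + 3) (i : Fin n) :
    interp y t i = y k i + ramp (t - 3 * (k : ℝ)) * (y (k + 1) i - y k i) := by
  have hk : (0 : ℝ) ≤ k := Nat.cast_nonneg k
  rcases lt_or_eq_of_le h2 with h | h
  · have : ⌊t / 3⌋₊ = k := by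
      rw [Nat.floor_eq_iff (by linarith)]
      constructor
      · linarith
      · linarith
    unfold interp
    rw [this]
  · have : ⌊t / 3⌋₊ = k + 1 := by
      rw [Nat.floor_eq_iff (by linarith)]
      push_cast
      constructor
      · linarith
      · linarith
    unfold interp
    rw [this, ramp_zero (s := t - 3 * ((k + 1 : ℕ) : ℝ)) (by push_cast; linarith),
      ramp_one (s := t - 3 * (k : ℝ)) (by linarith)]
    ring

lemma interp_at {n : ℕ} (y : ℕ → Fin n → ℝ) (k : ℕ) : interp y (3 * (k : ℝ)) = y k := by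
  funext i
  rw [interp_eq y k _ le_rfl (by linarith) i, ramp_zero (by linarith)]
  ring

lemma interp_zero {n : ℕ} (y : ℕ → Fin n → ℝ) : interp y 0 = y 0 := by
  have := interp_at y 0
  simpa using this

lemma interp_const {n : ℕ} (y : ℕ → Fin n → ℝ) (t : ℝ) (i : Fin n) (v : ℝ)
    (h : ∀ k, y k i = v) : interp y t i = v := by
  unfold interp
  rw [h, h]
  ring

lemma floor_bounds {t : ℝ} (ht : 0 ≤ t) :
    3 * ((⌊t / 3⌋₊ : ℕ) : ℝ) ≤ t ∧ t < 3 * ((⌊t / 3⌋₊ : ℕ) : ℝ) + 3 := by
  have h1 := Nat.floor_le (show 0 ≤ t / 3 by linarith)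
  have h2 := Nat.lt_floor_add_one (t / 3)
  constructor
  · linarith
  · linarith

lemma rest {n : ℕ} (y : ℕ → Fin n → ℝ) (i : Fin n) (p q : ℕ) (hpq : p ≤ q)
    (hc : ∀ s, p ≤ s → s < q → y (s + 1) i = y s i) (t : ℝ) (h0 : 0 ≤ t)
    (h1 : 3 * (p : ℝ) - 1 ≤ t) (h2 : t ≤ 3 * (q : ℝ) + 1) : interp y t i = y p i := by
  have hcc : ∀ s, p ≤ s → s ≤ q → y s i = y p i := by
    intro s hs
    induction s, hs using Nat.le_induction with
    | base => intro _; rfl
    | succ s hs ih =>
      intro hq
      rw [hc s hs (by omega), ih (by omega)]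
  obtain ⟨f1, f2⟩ := floor_bounds h0
  set s := ⌊t / 3⌋₊ with hs
  have e := interp_eq y s t f1 f2.le i
  rw [e]
  rcases lt_trichotomy s q with h | h | h
  · rcases le_or_gt p s with h' | h'
    · rw [hc s h' h, hcc s h' h.le]
      ring
    · -- s < p, so s + 1 = p
      have h3 : (s : ℝ) + 1 ≤ p := by exact_mod_cast h'
      have h4 : (p : ℝ) ≤ s + 1 := by
        have : (p : ℝ) < s + 2 := by linarith
        have h5 : p < s + 2 := by exact_mod_cast this
        have h6 : p ≤ s + 1 := by omega
        exact_mod_cast h6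
      have h5 : p = s + 1 := by
        have : (p : ℝ) = ((s + 1 : ℕ) : ℝ) := by push_cast; linarith
        exact_mod_cast this
      rw [ramp_one (by linarith), ← h5]
      ring
  · rw [h, ramp_zero (by rw [h] at f1; linarith), hcc q hpq le_rfl]
    ring
  · have h3 : (q : ℝ) + 1 ≤ s := by exact_mod_cast h
    linarith

/-- Scaled step executions are admissible. -/
lemma admissible_of_steps (P : Protocol) (N : ℕ) (w : ℕ → Fin (N + 2) → ℝ)
    (h0 : StrictMono (w 0)) (hl : ∀ k, w k 0 = w 0 0)
    (hr : ∀ k, w k (Fin.last (N + 1)) = w 0 (Fin.last (N + 1))) (δ : ℝ) (hδ : 0 < δ)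
    (hcyc : ∀ i : Fin (N + 2), i ≠ 0 → i ≠ Fin.last (N + 1) → ∃ a b : ℕ → ℕ,
      (∀ k, a k ≤ b k ∧ b k < a (k + 1)) ∧ (∀ s, (∀ k, s ≠ b k) → w (s + 1) i = w s i) ∧
      (∀ k, w (b k + 1) i ∈ Set.uIcc (w (a k) i) (dest P (w (a k)) 1 0 i) ∧
        (w (b k + 1) i = dest P (w (a k)) 1 0 i ∨ δ ≤ |w (b k + 1) i - w (a k) i|))) :
    Admissible P N (fun _ => 1 / (w 0 (Fin.last (N + 1)) - w 0 0))
      (fun _ => (0 - w 0 0) / (w 0 (Fin.last (N + 1)) - w 0 0))
      (interp (fun k i => (w k i - w 0 0) / (w 0 (Fin.last (N + 1)) - w 0 0))) := by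
  set A := w 0 0 with hA
  set B := w 0 (Fin.last (N + 1)) with hB
  have hAB : A < B := h0 (Fin.last_pos)
  have hL : 0 < B - A := by linarith
  set L := B - A with hLdef
  set y : ℕ → Fin (N + 2) → ℝ := fun k i => (w k i - A) / L with hy
  have hnear : ∀ k s i, near (y k) (1 / L) s i = near (w k) 1 s i := by
    intro k s i
    have e : ∀ j, (y k j - y k i) / (1 / L) = (w k j - w k i) / 1 := by
      intro j
      simp only [hy]
      field_simp
      ring
    unfold near
    simp only [e]
  have hmult : ∀ k i, mult (y k) i = mult (w k) i := by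
    intro k i
    have e : ∀ j, (y k j = y k i) ↔ (w k j = w k i) := by
      intro j
      simp only [hy]
      constructor
      · intro h
        have := (div_left_inj' hL.ne').mp h
        linarith
      · intro h
        rw [h]
    unfold mult
    simp only [e]
  have hdest : ∀ k i, dest P (y k) (1 / L) ((0 - A) / L) i = (dest P (w k) 1 0 i - A) / L := by
    intro k i
    have e : (y k i - (0 - A) / L) / (1 / L) = (w k i - 0) / 1 := by
      simp only [hy]
      field_simp
      ring
    unfold dest
    rw [hnear, hnear, hmult, e]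
    simp only [hy]
    field_simp
    ring
  refine ⟨?_, ?_, ?_, ?_, δ / L, by positivity, ?_⟩
  · intro i
    positivity
  · rw [interp_zero]
    intro i j hij
    simp only [hy]
    have := h0 hij
    gcongr
  · intro t _
    apply interp_const
    intro k
    simp only [hy, hl k, hA]
    simp
  · intro t _
    apply interp_const
    intro k
    simp only [hy, hr k]
    rw [hLdef]
    exact div_self hL.ne'
  · intro i hi0 hil
    obtain ⟨a, b, hab, hrest, hmove⟩ := hcyc i hi0 hil
    have hbmono : StrictMono b := strictMono_nat_of_lt_succ fun k =>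
      lt_of_lt_of_le (hab k).2 (hab (k + 1)).1
    have hyrest : ∀ s, (∀ k, s ≠ b k) → y (s + 1) i = y s i := by
      intro s hs
      simp only [hy]
      rw [hrest s hs]
    have hak : ∀ k, k ≤ a k := by
      intro k
      induction k with
      | zero => exact Nat.zero_le _
      | succ k ih =>
        have := hab k
        omega
    -- no move between `a k` and `b k`
    have hbetween : ∀ k s, a k ≤ s → s < b k → ∀ j, s ≠ b j := by
      intro k s h1 h2 j hj
      rw [hj] at h2
      have h3 : j < k := hbmono.lt_iff_lt.mp h2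
      have h4 : b j ≤ b (k - 1) := hbmono.monotone (by omega)
      have h5 := (hab (k - 1)).2
      have h6 : k - 1 + 1 = k := by omega
      rw [h6] at h5
      omega
    have hbetween2 : ∀ k s, b k + 1 ≤ s → s < b (k + 1) → ∀ j, s ≠ b j := by
      intro k s h1 h2 j hj
      rw [hj] at h2 h1
      have h3 : j < k + 1 := hbmono.lt_iff_lt.mp h2
      have h4 : k < j := hbmono.lt_iff_lt.mp (by omega)
      omega
    have hbefore : ∀ s, s < b 0 → ∀ j, s ≠ b j := by
      intro s h2 j hj
      rw [hj] at h2
      have h3 : j < 0 := hbmono.lt_iff_lt.mp h2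
      omega
    have hyab : ∀ k, y (b k) i = y (a k) i := by
      intro k
      have := rest y i (a k) (b k) (hab k).1
        (fun s h1 h2 => hyrest s (hbetween k s h1 h2)) (3 * (b k : ℝ)) (by positivity)
        (by have : (a k : ℝ) ≤ b k := by exact_mod_cast (hab k).1
            linarith) (by linarith)
      rw [interp_at] at this
      exact this
    refine ⟨fun k => 3 * (a k : ℝ), fun k => 3 * (b k : ℝ) + 1, fun k => 3 * (b k : ℝ) + 2,
      by positivity, ?_, ?_, ?_, ?_, ?_⟩
    · intro k
      have h1 : (a k : ℝ) ≤ b k := by exact_mod_cast (hab k).1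
      have h2 : (b k : ℝ) + 1 ≤ a (k + 1) := by exact_mod_cast (hab k).2
      refine ⟨?_, ?_, ?_⟩ <;> linarith
    · refine Filter.tendsto_atTop_mono (f := fun k : ℕ => (k : ℝ)) (fun k => ?_)
        tendsto_natCast_atTop_atTop
      have h1 : (k : ℝ) ≤ a k := by exact_mod_cast hak k
      have h2 : (0 : ℝ) ≤ a k := Nat.cast_nonneg _
      show (k : ℝ) ≤ 3 * (a k : ℝ)
      linarith
    · intro t h1 h2
      rw [interp_zero]
      exact rest y i 0 (b 0) (Nat.zero_le _) (fun s _ h => hyrest s (hbefore s h)) t h1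
        (by push_cast; linarith) h2
    · intro k t h1 h2
      have hbb : b k + 1 ≤ b (k + 1) := hbmono (Nat.lt_succ_self k)
      have hr' : ∀ t, 3 * (b k : ℝ) + 2 ≤ t → t ≤ 3 * (b (k + 1) : ℝ) + 1 →
          interp y t i = y (b k + 1) i := by
        intro t h1 h2
        refine rest y i (b k + 1) (b (k + 1)) hbb
          (fun s h3 h4 => hyrest s (hbetween2 k s h3 h4)) t ?_ ?_ h2
        · have : (0 : ℝ) ≤ b k := Nat.cast_nonneg _
          linarith
        · push_cast
          linarith
      have hbb' : (b k : ℝ) + 1 ≤ b (k + 1) := by exact_mod_cast hbb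
      rw [hr' t h1 h2, hr' (3 * (b k : ℝ) + 2) le_rfl (by linarith)]
    · intro k
      have hform : ∀ t, 3 * (b k : ℝ) + 1 ≤ t → t ≤ 3 * (b k : ℝ) + 2 →
          interp y t i = y (b k) i + (t - 3 * (b k : ℝ) - 1) * (y (b k + 1) i - y (b k) i) := by
        intro t h1 h2
        rw [interp_eq y (b k) t (by linarith) (by linarith) i, ramp_mid (by linarith) (by linarith)]
      have hstop : interp y (3 * (b k : ℝ) + 2) i = y (b k + 1) i := by
        rw [hform _ (by linarith) le_rfl]
        ring
      have hf : y (b k + 1) i ∈ Set.uIcc (y (a k) i) (dest P (y (a k)) (1 / L) ((0 - A) / L) i) := by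
        rw [hdest]
        simp only [hy]
        have h3 := (hmove k).1
        rw [Set.mem_uIcc] at h3 ⊢
        rcases h3 with ⟨h3, h4⟩ | ⟨h3, h4⟩
        · left
          constructor
          · gcongr
          · gcongr
        · right
          constructor
          · gcongr
          · gcongr
      refine ⟨?_, ?_, ?_⟩
      · refine ContinuousOn.congr (f := fun t =>
          y (b k) i + (t - 3 * (b k : ℝ) - 1) * (y (b k + 1) i - y (b k) i)) ?_ ?_
        · fun_prop
        · intro t ht
          exact hform t ht.1 ht.2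
      · intro t t' h1 h2 h3
        show interp y t' i ∈ Set.uIcc (interp y t i)
          (dest P (interp y (3 * (a k : ℝ))) (1 / L) ((0 - A) / L) i)
        rw [interp_at, hform t h1 (by linarith), hform t' (by linarith) h3, hyab]
        set p := y (a k) i with hp
        set f := y (b k + 1) i with hf'
        set q := dest P (y (a k)) (1 / L) ((0 - A) / L) i with hq
        have l1 : 0 ≤ t - 3 * (b k : ℝ) - 1 := by linarith
        have l2 : t - 3 * (b k : ℝ) - 1 ≤ t' - 3 * (b k : ℝ) - 1 := by linarith
        have l3 : t' - 3 * (b k : ℝ) - 1 ≤ 1 := by linarith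
        set u := t - 3 * (b k : ℝ) - 1
        set v := t' - 3 * (b k : ℝ) - 1
        rw [Set.mem_uIcc] at hf ⊢
        rcases hf with ⟨h4, h5⟩ | ⟨h4, h5⟩
        · left
          constructor
          · have : u * (f - p) ≤ v * (f - p) := mul_le_mul_of_nonneg_right l2 (by linarith)
            linarith
          · have : v * (f - p) ≤ 1 * (f - p) := mul_le_mul_of_nonneg_right l3 (by linarith)
            linarith
        · right
          constructor
          · have : v * (p - f) ≤ 1 * (p - f) := mul_le_mul_of_nonneg_right l3 (by linarith)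
            linarith
          · have : u * (p - f) ≤ v * (p - f) := mul_le_mul_of_nonneg_right l2 (by linarith)
            linarith
      · show interp y (3 * (b k : ℝ) + 2) i
            = dest P (interp y (3 * (a k : ℝ))) (1 / L) ((0 - A) / L) i ∨
          δ / L ≤ |interp y (3 * (b k : ℝ) + 2) i - interp y (3 * (a k : ℝ)) i|
        rw [interp_at, hstop, hdest]
        rcases (hmove k).2 with h3 | h3
        · left
          simp only [hy]
          rw [h3]
        · right
          simp only [hy]
          have e : (w (b k + 1) i - A) / L - (w (a k) i - A) / L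
              = (w (b k + 1) i - w (a k) i) / L := by
            field_simp
            ring
          rw [e, abs_div, abs_of_pos hL]
          gcongr

/-! ### truncated synchronous steps -/

/-- truncation -/
noncomputable def tr (τ v : ℝ) : ℝ := max (-τ) (min τ v)

lemma tr_abs {τ v : ℝ} (h : 0 < τ) : |tr τ v| ≤ τ := by
  unfold tr
  rw [abs_le]
  exact ⟨le_max_left _ _, max_le (by linarith) (min_le_left _ _)⟩

lemma tr_prop {τ v : ℝ} (h : 0 < τ) (p : ℝ) :
    p + tr τ v ∈ Set.uIcc p (p + v) ∧ (p + tr τ v = p + v ∨ τ ≤ |p + tr τ v - p|) := by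
  unfold tr
  rcases le_or_gt τ v with h1 | h1
  · rw [min_eq_left h1, max_eq_right (by linarith)]
    refine ⟨?_, ?_⟩
    · rw [Set.mem_uIcc]
      left
      constructor <;> linarith
    · right
      have : p + τ - p = τ := by ring
      rw [this, abs_of_pos h]
  · rw [min_eq_right h1.le]
    rcases le_or_gt (-τ) v with h2 | h2
    · rw [max_eq_right h2]
      exact ⟨Set.right_mem_uIcc, Or.inl rfl⟩
    · rw [max_eq_left h2.le]
      refine ⟨?_, ?_⟩
      · rw [Set.mem_uIcc]
        right
        constructor <;> linarith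
      · right
        have : p + -τ - p = -τ := by ring
        rw [this, abs_neg, abs_of_pos h]

/-- one synchronous step with moves of length at most `τ` -/
noncomputable def stp (P : Protocol) (τ : ℝ) {N : ℕ} (w : Fin (N + 2) → ℝ) : Fin (N + 2) → ℝ :=
  fun i => if i = 0 ∨ i = Fin.last (N + 1) then w i
    else w i + tr τ (P (w i) (near w 1 (-1) i) (near w 1 1 i) (mult w i))

lemma stp_zero (P : Protocol) (τ : ℝ) {N : ℕ} (w : Fin (N + 2) → ℝ) : stp P τ w 0 = w 0 := by
  simp [stp]

lemma stp_last (P : Protocol) (τ : ℝ) {N : ℕ} (w : Fin (N + 2) → ℝ) :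
    stp P τ w (Fin.last (N + 1)) = w (Fin.last (N + 1)) := by
  simp [stp]

lemma stp_int (P : Protocol) (τ : ℝ) {N : ℕ} (w : Fin (N + 2) → ℝ) (i : Fin (N + 2)) (h0 : i ≠ 0)
    (hl : i ≠ Fin.last (N + 1)) :
    stp P τ w i = w i + tr τ (P (w i) (near w 1 (-1) i) (near w 1 1 i) (mult w i)) := by
  simp [stp, h0, hl]

lemma dest_one (P : Protocol) {n : ℕ} (w : Fin n → ℝ) (i : Fin n) :
    dest P w 1 0 i = w i + P (w i) (near w 1 (-1) i) (near w 1 1 i) (mult w i) := by
  unfold dest
  rw [sub_zero, div_one, one_mul]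

lemma stp_move (P : Protocol) {τ : ℝ} (hτ : 0 < τ) {N : ℕ} (w : Fin (N + 2) → ℝ)
    (i : Fin (N + 2)) (h0 : i ≠ 0) (hl : i ≠ Fin.last (N + 1)) :
    stp P τ w i ∈ Set.uIcc (w i) (dest P w 1 0 i) ∧
      (stp P τ w i = dest P w 1 0 i ∨ τ ≤ |stp P τ w i - w i|) := by
  rw [stp_int P τ w i h0 hl, dest_one]
  exact tr_prop hτ (w i)

lemma stp_dist (P : Protocol) {τ : ℝ} (hτ : 0 < τ) {N : ℕ} (w : Fin (N + 2) → ℝ)
    (i : Fin (N + 2)) : |stp P τ w i - w i| ≤ τ := by
  by_cases h0 : i = 0
  · rw [h0, stp_zero, sub_self, abs_zero]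
    exact hτ.le
  · by_cases hl : i = Fin.last (N + 1)
    · rw [hl, stp_last, sub_self, abs_zero]
      exact hτ.le
    · rw [stp_int P τ w i h0 hl]
      have : w i + tr τ (P (w i) (near w 1 (-1) i) (near w 1 1 i) (mult w i)) - w i
          = tr τ (P (w i) (near w 1 (-1) i) (near w 1 1 i) (mult w i)) := by ring
      rw [this]
      exact tr_abs hτ

lemma near_congr {n : ℕ} (w : Fin n → ℝ) (s : ℝ) (i j : Fin n) (h : w i = w j) :
    near w 1 s i = near w 1 s j := by
  unfold near
  rw [h]

lemma mult_congr {n : ℕ} (w : Fin n → ℝ) (i j : Fin n) (h : w i = w j) :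
    mult w i = mult w j := by
  unfold mult
  rw [h]

lemma stp_congr (P : Protocol) (τ : ℝ) {N : ℕ} (w : Fin (N + 2) → ℝ) (i j : Fin (N + 2))
    (hi0 : i ≠ 0) (hil : i ≠ Fin.last (N + 1)) (hj0 : j ≠ 0) (hjl : j ≠ Fin.last (N + 1))
    (h : w i = w j) : stp P τ w i = stp P τ w j := by
  rw [stp_int P τ w i hi0 hil, stp_int P τ w j hj0 hjl, near_congr w (-1) i j h,
    near_congr w 1 i j h, mult_congr w i j h, h]

/-! ### adding a sensor on the left -/

/-- the configuration with an additional sensor `s_0` at `z` -/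
def ext {n : ℕ} (z : ℝ) (w : Fin n → ℝ) : Fin (n + 1) → ℝ := Fin.cons z w

@[simp] lemma ext_zero {n : ℕ} (z : ℝ) (w : Fin n → ℝ) : ext z w 0 = z := rfl

@[simp] lemma ext_succ {n : ℕ} (z : ℝ) (w : Fin n → ℝ) (i : Fin n) : ext z w i.succ = w i := by
  simp [ext]

lemma near_ext_right {n : ℕ} (z : ℝ) (w : Fin n → ℝ) (i : Fin n) (hz : z < w i) :
    near (ext z w) 1 1 i.succ = near w 1 1 i := by
  unfold near
  apply le_antisymm
  · apply Finset.le_inf
    intro j hj
    rw [Finset.mem_filter] at hj
    have := Finset.inf_le (f := fun j => (((1 : ℝ) * ((ext z w j - ext z w i.succ) / 1) : ℝ) : WithTop ℝ))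
      (s := univ.filter (fun j => 0 < (1 : ℝ) * ((ext z w j - ext z w i.succ) / 1)))
      (b := j.succ) (by
        rw [Finset.mem_filter]
        refine ⟨Finset.mem_univ _, ?_⟩
        simpa using hj.2)
    simpa using this
  · apply Finset.le_inf
    intro j hj
    rw [Finset.mem_filter] at hj
    revert hj
    refine Fin.cases ?_ ?_ j
    · intro hj
      exfalso
      have := hj.2
      simp only [ext_zero, ext_succ] at this
      linarith
    · intro j hj
      have := Finset.inf_le (f := fun j => (((1 : ℝ) * ((w j - w i) / 1) : ℝ) : WithTop ℝ))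
        (s := univ.filter (fun j => 0 < (1 : ℝ) * ((w j - w i) / 1))) (b := j) (by
          rw [Finset.mem_filter]
          refine ⟨Finset.mem_univ _, ?_⟩
          simpa using hj.2)
      simpa using this

lemma near_ext_left {n : ℕ} (z : ℝ) (w : Fin n → ℝ) (i : Fin n) (j0 : Fin n) (hz : z < w j0)
    (hj0 : w j0 < w i) :
    near (ext z w) 1 (-1) i.succ = near w 1 (-1) i := by
  unfold near
  apply le_antisymm
  · apply Finset.le_inf
    intro j hj
    rw [Finset.mem_filter] at hj
    have := Finset.inf_le
      (f := fun j => (((-1 : ℝ) * ((ext z w j - ext z w i.succ) / 1) : ℝ) : WithTop ℝ))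
      (s := univ.filter (fun j => 0 < (-1 : ℝ) * ((ext z w j - ext z w i.succ) / 1)))
      (b := j.succ) (by
        rw [Finset.mem_filter]
        refine ⟨Finset.mem_univ _, ?_⟩
        simpa using hj.2)
    simpa using this
  · apply Finset.le_inf
    intro j hj
    rw [Finset.mem_filter] at hj
    revert hj
    refine Fin.cases ?_ ?_ j
    · intro _
      have := Finset.inf_le (f := fun j => (((-1 : ℝ) * ((w j - w i) / 1) : ℝ) : WithTop ℝ))
        (s := univ.filter (fun j => 0 < (-1 : ℝ) * ((w j - w i) / 1))) (b := j0) (by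
          rw [Finset.mem_filter]
          refine ⟨Finset.mem_univ _, ?_⟩
          linarith)
      refine this.trans ?_
      rw [WithTop.coe_le_coe]
      simp only [ext_zero, ext_succ]
      linarith
    · intro j hj
      have := Finset.inf_le (f := fun j => (((-1 : ℝ) * ((w j - w i) / 1) : ℝ) : WithTop ℝ))
        (s := univ.filter (fun j => 0 < (-1 : ℝ) * ((w j - w i) / 1))) (b := j) (by
          rw [Finset.mem_filter]
          refine ⟨Finset.mem_univ _, ?_⟩
          simpa using hj.2)
      simpa using this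

lemma mult_ext {n : ℕ} (z : ℝ) (w : Fin n → ℝ) (i : Fin n) (hz : z < w i) :
    mult (ext z w) i.succ = mult w i := by
  unfold mult
  have : univ.filter (fun j => ext z w j = ext z w i.succ)
      = (univ.filter (fun j => w j = w i)).map (Fin.succEmb n) := by
    ext j
    rw [Finset.mem_filter, Finset.mem_map]
    refine Fin.cases ?_ ?_ j
    · simp only [ext_zero, ext_succ]
      constructor
      · rintro ⟨_, h⟩
        linarith
      · rintro ⟨k, _, hk⟩
        exact absurd hk (Fin.succ_ne_zero k)
    · intro j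
      simp only [ext_succ]
      constructor
      · rintro ⟨_, h⟩
        exact ⟨j, by rw [Finset.mem_filter]; exact ⟨Finset.mem_univ _, h⟩, rfl⟩
      · rintro ⟨k, hk, hkj⟩
        rw [Finset.mem_filter] at hk
        have : k = j := Fin.succ_injective _ hkj
        rw [← this]
        exact ⟨Finset.mem_univ _, hk.2⟩
  rw [this, Finset.card_map]

/-- the view of `s_1` in the initial configuration -/
lemma view_one {M : ℕ} (a : ℝ) (ha : 0 < a) (w : Fin (M + 2) → ℝ) (hw : StrictMono w)
    (hw0 : w 0 = 0) :
    near (ext (-a) w) 1 (-1) (Fin.succ 0) = ((a : ℝ) : WithTop ℝ) ∧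
    near (ext (-a) w) 1 1 (Fin.succ 0) = ((w 1 : ℝ) : WithTop ℝ) ∧
    mult (ext (-a) w) (Fin.succ 0) = 1 := by
  refine ⟨?_, ?_, ?_⟩
  · unfold near
    apply le_antisymm
    · have := Finset.inf_le
        (f := fun j => (((-1 : ℝ) * ((ext (-a) w j - ext (-a) w (Fin.succ 0)) / 1) : ℝ) : WithTop ℝ))
        (s := univ.filter (fun j => 0 < (-1 : ℝ) * ((ext (-a) w j - ext (-a) w (Fin.succ 0)) / 1)))
        (b := 0) (by
          rw [Finset.mem_filter]
          refine ⟨Finset.mem_univ _, ?_⟩
          simp only [ext_zero, ext_succ, hw0]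
          linarith)
      refine this.trans ?_
      rw [WithTop.coe_le_coe]
      simp only [ext_zero, ext_succ, hw0]
      linarith
    · apply Finset.le_inf
      intro j hj
      rw [Finset.mem_filter] at hj
      revert hj
      refine Fin.cases ?_ ?_ j
      · intro _
        rw [WithTop.coe_le_coe]
        simp only [ext_zero, ext_succ, hw0]
        linarith
      · intro j hj
        exfalso
        have h1 := hj.2
        simp only [ext_succ, hw0] at h1
        have h2 : w 0 ≤ w j := hw.monotone (Fin.zero_le _)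
        rw [hw0] at h2
        linarith
  · unfold near
    apply le_antisymm
    · have := Finset.inf_le
        (f := fun j => (((1 : ℝ) * ((ext (-a) w j - ext (-a) w (Fin.succ 0)) / 1) : ℝ) : WithTop ℝ))
        (s := univ.filter (fun j => 0 < (1 : ℝ) * ((ext (-a) w j - ext (-a) w (Fin.succ 0)) / 1)))
        (b := Fin.succ 1) (by
          rw [Finset.mem_filter]
          refine ⟨Finset.mem_univ _, ?_⟩
          simp only [ext_succ, hw0]
          have : w 0 < w 1 := hw (by simp)
          linarith)
      refine this.trans ?_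
      rw [WithTop.coe_le_coe]
      simp only [ext_succ, hw0]
      linarith
    · apply Finset.le_inf
      intro j hj
      rw [Finset.mem_filter] at hj
      revert hj
      refine Fin.cases ?_ ?_ j
      · intro hj
        exfalso
        have h1 := hj.2
        simp only [ext_zero, ext_succ, hw0] at h1
        linarith
      · intro j hj
        have h1 := hj.2
        simp only [ext_succ, hw0] at h1
        rw [WithTop.coe_le_coe]
        simp only [ext_succ, hw0]
        have h2 : j ≠ 0 := by
          rintro rfl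
          rw [hw0] at h1
          linarith
        have h3 : (1 : Fin (M + 2)) ≤ j := Fin.one_le_of_ne_zero h2
        have := hw.monotone h3
        linarith
  · unfold mult
    rw [Finset.card_eq_one]
    refine ⟨Fin.succ 0, ?_⟩
    ext j
    rw [Finset.mem_filter, Finset.mem_singleton]
    refine Fin.cases ?_ ?_ j
    · simp only [ext_zero, ext_succ, hw0]
      constructor
      · rintro ⟨_, h⟩
        linarith
      · intro h
        exact absurd h (by exact (Fin.succ_ne_zero 0).symm)
    · intro j
      simp only [ext_succ]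
      constructor
      · rintro ⟨_, h⟩
        rw [hw.injective h]
      · intro h
        rw [Fin.succ_injective _ h]
        exact ⟨Finset.mem_univ _, rfl⟩

lemma ext_strictMono {n : ℕ} (z : ℝ) (w : Fin (n + 1) → ℝ) (hw : StrictMono w) (hz : z < w 0) :
    StrictMono (ext z w) := by
  rw [Fin.strictMono_iff_lt_succ]
  intro i
  refine Fin.cases ?_ ?_ i
  · rw [ext_succ]
    exact hz
  · intro i
    rw [← Fin.succ_castSucc, ext_succ, ext_succ]
    exact hw (Fin.castSucc_lt_succ)

/-! ### the covering inequalities -/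

lemma telescope {N : ℕ} (x : Fin (N + 2) → ℝ) (D : ℝ)
    (h : ∀ i : Fin (N + 1), |x i.succ - x i.castSucc| ≤ D) (i : ℕ) :
    ∀ (j : ℕ) (hi : i ≤ j) (hj : j < N + 2),
      |x ⟨j, hj⟩ - x ⟨i, by omega⟩| ≤ ((j : ℝ) - i) * D := by
  intro j hi
  induction j, hi using Nat.le_induction with
  | base => intro hj; simp
  | succ j hij ih =>
    intro hj
    have h1 := ih (by omega)
    have h2 := h ⟨j, by omega⟩
    have e1 : (⟨j, by omega⟩ : Fin (N + 1)).succ = (⟨j + 1, hj⟩ : Fin (N + 2)) := rfl
    have e2 : (⟨j, by omega⟩ : Fin (N + 1)).castSucc = (⟨j, by omega⟩ : Fin (N + 2)) := rfl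
    rw [e1, e2] at h2
    have h3 := abs_sub_le (x ⟨j + 1, hj⟩) (x ⟨j, by omega⟩) (x ⟨i, by omega⟩)
    push_cast
    linarith

lemma no_cover {N : ℕ} (x : Fin (N + 2) → ℝ) (ε : ℝ) (h0 : x 0 = 0)
    (hl : x (Fin.last (N + 1)) = 1) (J : Fin (N + 2)) (hJ : 2 ≤ (J : ℕ))
    (h1 : x ⟨1, by omega⟩ = x J) (hε0 : 0 < ε) (hε : (N : ℝ) * ε < 1 / ((N : ℝ) + 1)) :
    ¬ Covering N ε x := by
  intro hc
  have hN : (0 : ℝ) ≤ N := Nat.cast_nonneg N
  set D := 1 / ((N : ℝ) + 1) + ε with hD
  have hDpos : 0 < D := by positivity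
  have ht := telescope x D (fun i => (hc i).2)
  have t1 := ht 0 1 (by omega) (by omega)
  have t2 := ht J (N + 1) (by omega) (by omega)
  have e1 : (⟨N + 1, by omega⟩ : Fin (N + 2)) = Fin.last (N + 1) := rfl
  have e2 : (⟨(J : ℕ), by omega⟩ : Fin (N + 2)) = J := rfl
  have e3 : (⟨0, by omega⟩ : Fin (N + 2)) = 0 := rfl
  rw [e1, e2, hl] at t2
  rw [e3, h0, h1] at t1
  have t3 := le_abs_self (1 - x J)
  have t4 := le_abs_self (x J - 0)
  have hJ' : (2 : ℝ) ≤ (J : ℕ) := by exact_mod_cast hJ
  push_cast at t1 t2
  have t5 : 1 ≤ ((N : ℝ) + 1 - (J : ℕ)) * D + D := by linarith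
  have t6 : ((N : ℝ) + 1 - (J : ℕ)) * D + D ≤ (N : ℝ) * D := by nlinarith
  have t7 : (N : ℝ) * D = 1 - 1 / ((N : ℝ) + 1) + (N : ℝ) * ε := by
    rw [hD]
    field_simp
    ring
  linarith

lemma near_neg {n : ℕ} (x : Fin n → ℝ) (c s : ℝ) (i : Fin n) :
    near x (-c) s i = near x c (-s) i := by
  have : ∀ j, s * ((x j - x i) / (-c)) = (-s) * ((x j - x i) / c) := by
    intro j
    rw [div_neg]
    ring
  unfold near
  simp only [this]

/-- reflection -/
lemma solves_reflect (P : Protocol) (hP : Solves P) :
    Solves (fun v l r m => - P (-v) r l m) := by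
  intro N c o x hx
  have hd : ∀ (y : Fin (N + 2) → ℝ) (i : Fin (N + 2)),
      dest P y (-(c i)) (o i) i = dest (fun v l r m => - P (-v) r l m) y (c i) (o i) i := by
    intro y i
    unfold dest
    rw [near_neg, near_neg, neg_neg, div_neg]
    ring
  refine hP N (fun i => -(c i)) o x ⟨fun i => neg_ne_zero.mpr (hx.unit i), hx.initial, hx.left_end,
    hx.right_end, ?_⟩
  simp only [hd]
  exact hx.cycles

/-- a protocol that never moves from the view `(1, 3)` -/
lemma no_solve_static (P : Protocol) (h : P 0 ((1 : ℝ) : WithTop ℝ) ((3 : ℝ) : WithTop ℝ) 1 = 0) :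
    ¬ Solves P := by
  intro hS
  set w0 : Fin (0 + 2) → ℝ := ![0, 3] with hw0
  have hmono : StrictMono w0 := by
    rw [Fin.strictMono_iff_lt_succ]
    intro i
    fin_cases i
    simp [hw0]
  have hv := view_one (M := 0) 1 one_pos w0 hmono rfl
  set W : ℕ → Fin (1 + 2) → ℝ := fun _ => ext (-1) w0 with hW
  have hWm : StrictMono (W 0) := ext_strictMono (-1) w0 hmono (by norm_num [hw0])
  have hadm := admissible_of_steps P 1 W hWm (fun _ => rfl) (fun _ => rfl) 1 one_pos (by
    intro i hi0 hil
    refine ⟨id, id, fun k => ⟨le_rfl, Nat.lt_succ_self k⟩, fun s _ => rfl, fun k => ?_⟩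
    have hi : i = Fin.succ 0 := by
      fin_cases i
      · exact absurd rfl hi0
      · rfl
      · exact absurd rfl hil
    have hd : dest P (W (id k)) 1 0 i = W (id k) i := by
      rw [hi]
      show dest P (ext (-1) w0) 1 0 (Fin.succ 0) = ext (-1) w0 (Fin.succ 0)
      rw [dest_one, hv.1, hv.2.1, hv.2.2]
      have : ((w0 1 : ℝ) : WithTop ℝ) = ((3 : ℝ) : WithTop ℝ) := rfl
      have h2 : ext (-1) w0 (Fin.succ 0) = 0 := rfl
      rw [this, h2, h]
      ring
    rw [hd]
    exact ⟨Set.left_mem_uIcc, Or.inl rfl⟩)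
  obtain ⟨t, ht, hcov⟩ := hS 1 _ _ _ hadm (1 / 8) (by norm_num)
  have hc := (hcov 0).1
  have e1 : interp (fun k i => (W k i - W 0 0) / (W 0 (Fin.last (1 + 1)) - W 0 0)) t
      (Fin.succ 0) = 1 / 4 := by
    apply interp_const
    intro k
    have a1 : W k (Fin.succ 0) = 0 := rfl
    have a2 : W 0 0 = -1 := rfl
    have a3 : W 0 (Fin.last (1 + 1)) = 3 := rfl
    rw [a1, a2, a3]
    norm_num
  have e2 : interp (fun k i => (W k i - W 0 0) / (W 0 (Fin.last (1 + 1)) - W 0 0)) t
      (Fin.castSucc 0) = 0 := hadm.left_end t ht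
  rw [e1, e2] at hc
  norm_num at hc

/-- the initial placement of the sub-segment -/
noncomputable def init (M : ℕ) (b : ℝ) : Fin (M + 2) → ℝ :=
  fun j => if j = 0 then 0 else b + (((j : ℕ) : ℝ) - 1) / M

lemma init_zero (M : ℕ) (b : ℝ) : init M b 0 = 0 := by simp [init]

lemma init_one (M : ℕ) (b : ℝ) : init M b 1 = b := by simp [init]

lemma init_last (M : ℕ) (b : ℝ) (hM : 0 < M) : init M b (Fin.last (M + 1)) = b + 1 := by
  have hM0 : (M : ℝ) ≠ 0 := by positivity
  simp [init, hM0]

lemma init_mono (M : ℕ) (b : ℝ) (hM : 0 < M) (hb : 0 < b) : StrictMono (init M b) := by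
  have hM0 : (0 : ℝ) < M := by exact_mod_cast hM
  intro i j hij
  unfold init
  have hj0 : j ≠ 0 := by
    rintro rfl
    exact absurd hij (Fin.not_lt_zero i)
  rw [if_neg hj0]
  have hj1 : 1 ≤ (j : ℕ) := Nat.one_le_iff_ne_zero.mpr (fun h => hj0 (Fin.ext h))
  have hj1' : (1 : ℝ) ≤ ((j : ℕ) : ℝ) := by exact_mod_cast hj1
  by_cases hi : i = 0
  · rw [if_pos hi]
    have : 0 ≤ (((j : ℕ) : ℝ) - 1) / M := div_nonneg (by linarith) hM0.le
    linarith
  · rw [if_neg hi]
    have h1 : ((i : ℕ) : ℝ) < ((j : ℕ) : ℝ) := by exact_mod_cast hij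
    have : (((i : ℕ) : ℝ) - 1) / M < (((j : ℕ) : ℝ) - 1) / M := by
      apply div_lt_div_of_pos_right _ hM0
      linarith
    linarith

/-- The main construction. -/
lemma no_solve_pos (P : Protocol) (a b : ℝ) (ha : 0 < a) (hb : 0 < b)
    (hr : 0 < P 0 ((a : ℝ) : WithTop ℝ) ((b : ℝ) : WithTop ℝ) 1) : ¬ Solves P := by
  intro hS
  set r := P 0 ((a : ℝ) : WithTop ℝ) ((b : ℝ) : WithTop ℝ) 1 with hrdef
  obtain ⟨M, hM⟩ := exists_nat_gt (max (4 * (b + 1) / r) ((a + b + 1) / a))
  have hM1 : 4 * (b + 1) / r < M := (le_max_left _ _).trans_lt hM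
  have hM2 : (a + b + 1) / a < M := (le_max_right _ _).trans_lt hM
  have hM0' : (0 : ℝ) < M := lt_trans (by positivity) hM1
  have hM0 : 0 < M := by exact_mod_cast hM0'
  set τ := r / 4 with hτdef
  have hτ : 0 < τ := by positivity
  set w0 := init M b with hw0
  have hmono : StrictMono w0 := init_mono M b hM0 hb
  set w : ℕ → Fin (M + 2) → ℝ := fun k => (stp P τ)^[k] w0 with hw
  have hwz : w 0 = w0 := rfl
  have hws : ∀ k, w (k + 1) = stp P τ (w k) := fun k => Function.iterate_succ_apply' _ _ _
  have hw_zero : ∀ k, w k 0 = 0 := by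
    intro k
    induction k with
    | zero => exact init_zero M b
    | succ k ih => rw [hws, stp_zero, ih]
  have hw_last : ∀ k, w k (Fin.last (M + 1)) = b + 1 := by
    intro k
    induction k with
    | zero => exact init_last M b hM0
    | succ k ih => rw [hws, stp_last, ih]
  -- the sub-execution
  have hsub := admissible_of_steps P M w hmono (fun k => by rw [hw_zero, hw_zero])
    (fun k => by rw [hw_last, hw_last]) τ hτ (by
      intro i hi0 hil
      refine ⟨id, id, fun k => ⟨le_rfl, Nat.lt_succ_self k⟩, fun s hs => absurd rfl (hs s),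
        fun k => ?_⟩
      simp only [id]
      rw [hws]
      exact stp_move P hτ (w k) i hi0 hil)
  obtain ⟨t, ht, hcov⟩ := hS M _ _ _ hsub (r / (4 * (b + 1))) (by positivity)
  -- some interior sensor comes within distance `r`
  have h1last : (1 : Fin (M + 2)) ≠ Fin.last (M + 1) := by
    intro h
    have := congrArg Fin.val h
    simp at this
    omega
  have hex : ∃ k, ∃ j : Fin (M + 2), j ≠ 0 ∧ j ≠ Fin.last (M + 1) ∧ w k j ≤ r := by
    refine ⟨⌊t / 3⌋₊, 1, by simp, h1last, ?_⟩
    obtain ⟨f1, f2⟩ := floor_bounds ht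
    set k := ⌊t / 3⌋₊ with hk
    have hc := (hcov 0).2
    set y : ℕ → Fin (M + 2) → ℝ :=
      fun k i => (w k i - w 0 0) / (w 0 (Fin.last (M + 1)) - w 0 0) with hy
    have e0 : interp y t (Fin.castSucc 0) = 0 := hsub.left_end t ht
    rw [e0, sub_zero] at hc
    have e1 : (Fin.succ 0 : Fin (M + 2)) = 1 := rfl
    rw [e1, interp_eq y k t f1 f2.le] at hc
    have hyk : ∀ k, y k 1 = w k 1 / (b + 1) := by
      intro k
      simp only [hy, hw_zero, hw_last, sub_zero]
    have hd := stp_dist P hτ (w k) 1
    rw [← hws, abs_le] at hd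
    have hρ0 := ramp_nonneg (t - 3 * (k : ℝ))
    have hρ1 := ramp_le_one (t - 3 * (k : ℝ))
    set ρ := ramp (t - 3 * (k : ℝ)) with hρ
    rw [hyk, hyk] at hc
    have h2 := (le_abs_self _).trans hc
    have h3 : (w k 1 + ρ * (w (k + 1) 1 - w k 1)) / (b + 1)
        ≤ 1 / ((M : ℝ) + 1) + r / (4 * (b + 1)) := by
      have : (w k 1 + ρ * (w (k + 1) 1 - w k 1)) / (b + 1)
          = w k 1 / (b + 1) + ρ * (w (k + 1) 1 / (b + 1) - w k 1 / (b + 1)) := by
        field_simp
      rw [this]
      exact h2
    rw [div_le_iff₀ (by linarith)] at h3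
    have h4 : (1 / ((M : ℝ) + 1) + r / (4 * (b + 1))) * (b + 1)
        = (b + 1) / ((M : ℝ) + 1) + r / 4 := by
      field_simp
    rw [h4] at h3
    have h5 : (b + 1) / ((M : ℝ) + 1) ≤ r / 4 := by
      rw [div_le_iff₀ (by linarith)]
      rw [div_lt_iff₀ hr] at hM1
      nlinarith
    have h6 : -τ ≤ ρ * (w (k + 1) 1 - w k 1) := by
      rcases le_or_gt 0 (w (k + 1) 1 - w k 1) with h | h
      · have := mul_nonneg hρ0 h
        linarith
      · have : 1 * (w (k + 1) 1 - w k 1) ≤ ρ * (w (k + 1) 1 - w k 1) :=
          mul_le_mul_of_nonpos_right hρ1 h.le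
        linarith [hd.1]
    linarith
  classical
  set K := Nat.find hex with hK
  obtain ⟨j, hj0, hjl, hjr⟩ := Nat.find_spec hex
  rw [← hK] at hjr
  have hlt : ∀ k, k < K → ∀ i : Fin (M + 2), i ≠ 0 → i ≠ Fin.last (M + 1) → r < w k i := by
    intro k hk i hi0 hil
    by_contra h
    exact Nat.find_min hex hk ⟨i, hi0, hil, le_of_not_gt h⟩
  have hjpos : 0 < w K j := by
    rcases Nat.eq_zero_or_pos K with h | h
    · rw [h, hwz]
      have := hmono (Fin.pos_of_ne_zero hj0)
      rw [hw0, init_zero] at this
      exact this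
    · obtain ⟨k, hk⟩ : ∃ k, K = k + 1 := ⟨K - 1, by omega⟩
      have h1 := hlt k (by omega) j hj0 hjl
      have h2 := stp_dist P hτ (w k) j
      rw [← hws, abs_le, ← hk] at h2
      linarith [h2.1]
  -- the big execution
  set V : Fin (M + 1 + 2) → ℝ := Function.update (ext (-a) (w K)) (Fin.succ 0) (w K j) with hV
  set W : ℕ → Fin (M + 1 + 2) → ℝ :=
    fun k => if k ≤ K then ext (-a) (w k) else (stp P τ)^[k - (K + 1)] V with hW
  have hW1 : ∀ k, k ≤ K → W k = ext (-a) (w k) := by
    intro k hk
    simp only [hW]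
    rw [if_pos hk]
  have hW2 : W (K + 1) = V := by
    simp only [hW]
    rw [if_neg (by omega), Nat.sub_self]
    rfl
  have hW3 : ∀ k, K < k → W (k + 1) = stp P τ (W k) := by
    intro k hk
    simp only [hW]
    rw [if_neg (by omega), if_neg (by omega)]
    have : k + 1 - (K + 1) = (k - (K + 1)) + 1 := by omega
    rw [this, Function.iterate_succ_apply']
  have hlast : (Fin.last (M + 1 + 1) : Fin (M + 1 + 2)) = Fin.succ (Fin.last (M + 1)) := rfl
  have hsl : (Fin.succ 0 : Fin (M + 1 + 2)) ≠ Fin.last (M + 1 + 1) := by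
    rw [hlast]
    intro h
    have := Fin.succ_injective _ h
    have := congrArg Fin.val this
    simp at this
  have hs0 : (Fin.succ 0 : Fin (M + 1 + 2)) ≠ 0 := Fin.succ_ne_zero _
  have hWl : ∀ k, W k 0 = -a := by
    intro k
    rcases le_or_gt k K with h | h
    · rw [hW1 k h]
      rfl
    · induction k, h using Nat.le_induction with
      | base =>
        rw [hW2, hV, Function.update_of_ne hs0.symm]
        rfl
      | succ k hk ih =>
        rw [hW3 k (by omega), stp_zero]
        exact ih
  have hWr : ∀ k, W k (Fin.last (M + 1 + 1)) = b + 1 := by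
    intro k
    rcases le_or_gt k K with h | h
    · rw [hW1 k h, hlast]
      exact (ext_succ _ _ _).trans (hw_last k)
    · induction k, h using Nat.le_induction with
      | base =>
        rw [hW2, hV, Function.update_of_ne hsl.symm, hlast]
        exact (ext_succ _ _ _).trans (hw_last K)
      | succ k hk ih =>
        rw [hW3 k (by omega), stp_last]
        exact ih
  have hWmono : StrictMono (W 0) := by
    rw [hW1 0 (Nat.zero_le _), hwz]
    exact ext_strictMono (-a) w0 hmono (by rw [hw0, init_zero]; linarith)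
  have hview := view_one (M := M) a ha w0 hmono (init_zero M b)
  have hd1 : dest P (W 0) 1 0 (Fin.succ 0) = r := by
    rw [hW1 0 (Nat.zero_le _), hwz, dest_one, hview.1, hview.2.1, hview.2.2]
    have e1 : ext (-a) w0 (Fin.succ 0) = 0 := (ext_succ _ _ _).trans (init_zero M b)
    have e2 : w0 1 = b := init_one M b
    rw [e1, e2, zero_add]
  have hbig := admissible_of_steps P (M + 1) W hWmono (fun k => by rw [hWl, hWl])
    (fun k => by rw [hWr, hWr]) (min τ (w K j)) (lt_min hτ hjpos) (by
      intro i hi0 hil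
      by_cases hi1 : i = Fin.succ 0
      · refine ⟨fun k => if k = 0 then 0 else K + k, fun k => K + k, ?_, ?_, ?_⟩
        · intro k
          simp only
          constructor
          · split_ifs <;> omega
          · rw [if_neg (by omega)]
            omega
        · intro s hs
          have hsK : s < K := by
            by_contra h
            exact hs (s - K) (by simp only; omega)
          rw [hi1, hW1 s hsK.le, hW1 (s + 1) hsK]
          rw [ext_succ, ext_succ, hw_zero, hw_zero]
        · intro k
          simp only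
          rcases Nat.eq_zero_or_pos k with h | h
          · rw [h, if_pos rfl]
            change W (K + 1) i ∈ Set.uIcc (W 0 i) (dest P (W 0) 1 0 i) ∧
              (W (K + 1) i = dest P (W 0) 1 0 i ∨ min τ (w K j) ≤ |W (K + 1) i - W 0 i|)
            rw [hi1, hd1, hW2, hV, Function.update_self,
              hW1 0 (Nat.zero_le _), ext_succ, hw_zero]
            refine ⟨?_, Or.inr ?_⟩
            · rw [Set.mem_uIcc]
              exact Or.inl ⟨hjpos.le, hjr⟩
            · rw [sub_zero, abs_of_pos hjpos]
              exact min_le_right _ _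
          · rw [if_neg (by omega), hW3 (K + k) (by omega)]
            have := stp_move P hτ (W (K + k)) i hi0 hil
            exact ⟨this.1, this.2.imp id fun h => (min_le_left _ _).trans h⟩
      · obtain ⟨i', hi'⟩ := Fin.exists_succ_eq.mpr hi0
        have hi'0 : i' ≠ 0 := by
          rintro rfl
          exact hi1 hi'.symm
        have hi'l : i' ≠ Fin.last (M + 1) := by
          rintro rfl
          exact hil (hi'.symm.trans hlast.symm)
        refine ⟨fun k => if k < K then k else k + 1, fun k => if k < K then k else k + 1, ?_, ?_, ?_⟩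
        · intro k
          simp only
          constructor
          · exact le_rfl
          · split_ifs <;> omega
        · intro s hs
          have hsK : s = K := by
            by_contra h
            rcases lt_or_gt_of_ne h with h' | h'
            · exact hs s (by simp only; rw [if_pos h'])
            · exact hs (s - 1) (by simp only; rw [if_neg (by omega)]; omega)
          rw [hsK, hW2, hV, Function.update_of_ne hi1, hW1 K le_rfl]
        · intro k
          simp only
          by_cases hkK : k < K
          · rw [if_pos hkK, hW1 k hkK.le, hW1 (k + 1) hkK, ← hi']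
            have hwpos : r < w k i' := hlt k hkK i' hi'0 hi'l
            have hd : dest P (ext (-a) (w k)) 1 0 i'.succ = dest P (w k) 1 0 i' := by
              rw [dest_one, dest_one, near_ext_left (-a) (w k) i' 0 (by rw [hw_zero]; linarith)
                (by rw [hw_zero]; linarith), near_ext_right (-a) (w k) i' (by linarith),
                mult_ext (-a) (w k) i' (by linarith), ext_succ]
            rw [hd, ext_succ, ext_succ, hws]
            have := stp_move P hτ (w k) i' hi'0 hi'l
            exact ⟨this.1, this.2.imp id fun h => (min_le_left _ _).trans h⟩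
          · rw [if_neg hkK, hW3 (k + 1) (by omega)]
            have := stp_move P hτ (W (k + 1)) i hi0 hil
            exact ⟨this.1, this.2.imp id fun h => (min_le_left _ _).trans h⟩)
  -- choice of the precision
  have hL' : 0 < a + b + 1 := by linarith
  have hgap : 1 / ((M : ℝ) + 2) < a / (a + b + 1) := by
    rw [div_lt_div_iff₀ (by positivity) hL']
    rw [div_lt_iff₀ ha] at hM2
    nlinarith
  set ε := min ((a / (a + b + 1) - 1 / ((M : ℝ) + 2)) / 2) (1 / (2 * ((M : ℝ) + 2) ^ 2)) with hε
  have hε0 : 0 < ε := lt_min (by linarith) (by positivity)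
  obtain ⟨t', ht', hcov'⟩ := hS (M + 1) _ _ _ hbig ε hε0
  obtain ⟨f1, f2⟩ := floor_bounds ht'
  set k := ⌊t' / 3⌋₊ with hk
  set y : ℕ → Fin (M + 1 + 2) → ℝ :=
    fun k i => (W k i - W 0 0) / (W 0 (Fin.last (M + 1 + 1)) - W 0 0) with hy
  have hyk : ∀ k i, y k i = (W k i + a) / (a + b + 1) := by
    intro k i
    simp only [hy]
    rw [hWl, hWr]
    congr 1 <;> ring
  rcases le_or_gt k K with hkK | hkK
  · -- `s_1` has not left its place, or is moving to the right
    have hpos : ∀ k, k ≤ K + 1 → 0 ≤ W k (Fin.succ 0) := by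
      intro k hk
      rcases Nat.lt_or_ge K k with h | h
      · have : k = K + 1 := by omega
        rw [this, hW2, hV, Function.update_self]
        exact hjpos.le
      · rw [hW1 k h, ext_succ, hw_zero]
    have hx1 : a / (a + b + 1) ≤ interp y t' (Fin.succ 0) := by
      rw [interp_eq y k t' f1 f2.le]
      have g1 : a / (a + b + 1) ≤ y k (Fin.succ 0) := by
        rw [hyk]
        apply div_le_div_of_nonneg_right _ hL'.le
        linarith [hpos k (by omega)]
      have g2 : a / (a + b + 1) ≤ y (k + 1) (Fin.succ 0) := by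
        rw [hyk]
        apply div_le_div_of_nonneg_right _ hL'.le
        linarith [hpos (k + 1) (by omega)]
      have hρ0 := ramp_nonneg (t' - 3 * (k : ℝ))
      have hρ1 := ramp_le_one (t' - 3 * (k : ℝ))
      nlinarith
    have hc := (hcov' 0).2
    have e0 : interp y t' (Fin.castSucc 0) = 0 := hbig.left_end t' ht'
    rw [e0, sub_zero] at hc
    have h1 := (le_abs_self _).trans hc
    have h2 : ε ≤ (a / (a + b + 1) - 1 / ((M : ℝ) + 2)) / 2 := min_le_left _ _
    have h3 : 1 / (((M + 1 : ℕ) : ℝ) + 1) = 1 / ((M : ℝ) + 2) := by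
      push_cast
      congr 1
      ring
    rw [h3] at h1
    linarith
  · -- the two sensors stay together
    have hjs0 : (Fin.succ j : Fin (M + 1 + 2)) ≠ 0 := Fin.succ_ne_zero _
    have hjsl : (Fin.succ j : Fin (M + 1 + 2)) ≠ Fin.last (M + 1 + 1) := by
      rw [hlast]
      intro h
      exact hjl (Fin.succ_injective _ h)
    have hjs1 : (Fin.succ j : Fin (M + 1 + 2)) ≠ Fin.succ 0 := by
      intro h
      exact hj0 (Fin.succ_injective _ h)
    have htog : ∀ k, K < k → W k (Fin.succ 0) = W k (Fin.succ j) := by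
      intro k hk
      induction k, hk using Nat.le_induction with
      | base =>
        rw [hW2, hV, Function.update_self, Function.update_of_ne hjs1]
        exact (ext_succ _ _ _).symm
      | succ k hk ih =>
        rw [hW3 k (by omega)]
        exact stp_congr P τ (W k) _ _ hs0 hsl hjs0 hjsl (ih)
    have hx : interp y t' (Fin.succ 0) = interp y t' (Fin.succ j) := by
      rw [interp_eq y k t' f1 f2.le, interp_eq y k t' f1 f2.le, hyk, hyk, hyk, hyk,
        htog k hkK, htog (k + 1) (by omega)]
    refine no_cover (N := M + 1) (interp y t') ε (hbig.left_end t' ht') (hbig.right_end t' ht')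
      (Fin.succ j) ?_ hx hε0 ?_ hcov'
    · rw [Fin.val_succ]
      have : (j : ℕ) ≠ 0 := fun h => hj0 (Fin.ext h)
      omega
    · have h2 : ε ≤ 1 / (2 * ((M : ℝ) + 2) ^ 2) := min_le_right _ _
      have h3 : (((M + 1 : ℕ) : ℝ)) * ε ≤ ((M : ℝ) + 1) * (1 / (2 * ((M : ℝ) + 2) ^ 2)) := by
        push_cast
        exact mul_le_mul_of_nonneg_left h2 (by positivity)
      refine lt_of_le_of_lt h3 ?_
      push_cast
      rw [mul_one_div, div_lt_div_iff₀ (by positivity) (by positivity)]
      nlinarith

/-- **MP_362848_lc, Q1 (negated form).** Approximate covering of the segment is not solvable under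
the ASYNC scheduler with neighbour visibility. -/
theorem result : ¬ ∃ P : Protocol, Solves P := by
  rintro ⟨P, hP⟩
  rcases lt_trichotomy (P 0 ((1 : ℝ) : WithTop ℝ) ((3 : ℝ) : WithTop ℝ) 1) 0 with h | h | h
  · refine no_solve_pos (fun v l r m => - P (-v) r l m) 3 1 (by norm_num) one_pos ?_
      (solves_reflect P hP)
    simpa using h
  · exact no_solve_static P h hP
  · exact no_solve_pos P 1 3 one_pos (by norm_num) h hP

end Pool.Agent.Results.MP_362848_lc.AsyncSegment
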